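import Mathlib.LinearAlgebra.Matrix.BilinearForm
import Mathlib.Analysis.SpecialFunctions.Trigonometric.Basic
import Mathlib.GroupTheory.Coxeter.Basic
import Mathlib.LinearAlgebra.Projectivization.Action
import Mathlib.LinearAlgebra.QuadraticForm.Signature

/-!
Definitions for limit directions of geometric Coxeter systems (Chen and Labbe).
The simple roots are the standard basis vectors `Pi.single s 1` of `V = S → ℝ`.
In a `CoxeterMatrix` of Mathlib the entry `0` stands for `m = ∞`.
-/

open Filter Topology
open scoped LinearAlgebra.Projectivization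

namespace Pool.Agent.MP_55c352_al

/-- `B` is an admissible Gram matrix for the Coxeter matrix `M`: symmetric, `B s s = 1`,
`B s t = -cos (π / m)` when `m = M s t` is finite, and `B s t ≤ -1` when `m = ∞`. -/
def IsCoxeterForm {S : Type} (M : CoxeterMatrix S) (B : Matrix S S ℝ) : Prop :=
  B.IsSymm ∧ (∀ s, B s s = 1) ∧
    (∀ s t, M s t ≠ 0 → B s t = -Real.cos (Real.pi / (M s t : ℝ))) ∧
    (∀ s t, M s t = 0 → B s t ≤ -1)

/-- The bilinear form with Gram matrix `B` has signature `(n - 1, 1)`, where `n = |S|`. -/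
def IsLorentzian {S : Type} [Fintype S] [DecidableEq S] (B : Matrix S S ℝ) : Prop :=
  sigPos (Matrix.toBilin' B).toQuadraticMap + 1 = Fintype.card S ∧
    sigNeg (Matrix.toBilin' B).toQuadraticMap = 1

/-- `ρ` is the geometric representation of the Coxeter group of `M` attached to `B`:
each simple reflection `s` acts by `v ↦ v - 2 B(α_s, v) α_s`. -/
def IsGeometricRep {S : Type} [Fintype S] [DecidableEq S] (M : CoxeterMatrix S)
    (B : Matrix S S ℝ) (ρ : M.Group →* ((S → ℝ) ≃ₗ[ℝ] (S → ℝ))) : Prop :=
  ∀ (s : S) (v : S → ℝ),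
    ρ (M.simple s) v = v - (2 * Matrix.toBilin' B (Pi.single s 1) v) • (Pi.single s 1 : S → ℝ)

/-- A direction is space-like if `B(x, x) > 0` for a representative vector `x`. -/
def IsSpaceLike {S : Type} [Fintype S] [DecidableEq S] (B : Matrix S S ℝ)
    (x : ℙ ℝ (S → ℝ)) : Prop :=
  0 < Matrix.toBilin' B x.rep x.rep

/-- Convergence of a sequence in the projective space `ℙ V` for its usual topology, the quotient
topology induced by the projection from the nonzero vectors. -/
def ProjTendsto {S : Type} (y : ℕ → ℙ ℝ (S → ℝ)) (x : ℙ ℝ (S → ℝ)) : Prop :=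
  Tendsto y atTop
    (@nhds _ (TopologicalSpace.coinduced (Projectivization.mk' ℝ) inferInstance) x)

/-- `x` is a limit direction: the limit of an injective sequence of points in the orbit of some
base point `p`. -/
def IsLimitDirection {S W : Type} [Group W] (ρ : W →* ((S → ℝ) ≃ₗ[ℝ] (S → ℝ)))
    (x : ℙ ℝ (S → ℝ)) : Prop :=
  ∃ (p : ℙ ℝ (S → ℝ)) (g : ℕ → W),
    Function.Injective (fun j => ρ (g j) • p) ∧ ProjTendsto (fun j => ρ (g j) • p) x

/-- `x` arises through powers of `w`: it is the limit of an injective sequence of points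
`w ^ k_j • p` for some base point `p` and some integers `k_j` (not required to increase). -/
def ArisesThroughPowers {S W : Type} [Group W] (ρ : W →* ((S → ℝ) ≃ₗ[ℝ] (S → ℝ)))
    (w : W) (x : ℙ ℝ (S → ℝ)) : Prop :=
  ∃ (p : ℙ ℝ (S → ℝ)) (k : ℕ → ℤ),
    Function.Injective (fun j => ρ (w ^ k j) • p) ∧ ProjTendsto (fun j => ρ (w ^ k j) • p) x

end Pool.Agent.MP_55c352_al
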