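import Mathlib.Topology.Sheaves.Presheaf
import Mathlib.LinearAlgebra.Reflection
import Mathlib.Data.Int.Star
import Mathlib.Algebra.Order.Ring.Star
import Mathlib.Analysis.SpecialFunctions.Pow.Asymptotics
import Mathlib.Analysis.InnerProductSpace.Basic
import Mathlib.Analysis.RCLike.Lemmas
import Mathlib.Algebra.Order.Archimedean.Real.Hom
import Mathlib.Algebra.Order.Star.Real
import Mathlib.Algebra.Ring.IsFormallyReal
import Mathlib.LinearAlgebra.Matrix.FixedDetMatrices
import Mathlib.NumberTheory.Transcendental.Liouville.LiouvilleNumber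
import Pool.Agent.MP_55c352_al.Defs

-- ======== part 0: formerly Pool.Agent.MP_55c352_al.Seq
section MrgPart0

/-! Elementary lemmas on two-term linear recurrences indexed by the integers. -/

open Filter Topology

namespace Pool.Agent.MP_55c352_al

lemma aux_limit_zero {ι : Type} (G : Filter ι) [G.NeBot] (m u : ι → ℝ) (a b L : ℝ)
    (hm : Tendsto m G (𝓝 0)) (hm0 : ∀ i, m i ≠ 0) (hu : ∀ i, u i = a * (m i)⁻¹ + b * m i)
    (hL : Tendsto (fun i => u i ^ 2) G (𝓝 L)) : L = 0 := by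
  have h1 : Tendsto (fun i => u i ^ 2 * m i ^ 2) G (𝓝 (L * 0 ^ 2)) := hL.mul (hm.pow 2)
  have h2 : Tendsto (fun i => (a + b * m i ^ 2) ^ 2) G (𝓝 ((a + b * 0 ^ 2) ^ 2)) :=
    (((hm.pow 2).const_mul b).const_add a).pow 2
  have h3 : (fun i => u i ^ 2 * m i ^ 2) = fun i => (a + b * m i ^ 2) ^ 2 := by
    funext i
    have := hm0 i
    rw [hu i]; field_simp
  rw [h3] at h1
  have h4 := tendsto_nhds_unique h1 h2
  have ha : a = 0 := by
    have : a ^ 2 = 0 := by simpa using h4.symm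
    exact pow_eq_zero_iff (two_ne_zero) |>.mp this
  have h5 : Tendsto (fun i => u i ^ 2) G (𝓝 ((b * 0) ^ 2)) := by
    have : (fun i => u i ^ 2) = fun i => (b * m i) ^ 2 := by
      funext i; rw [hu i, ha]; ring
    rw [this]
    exact (hm.const_mul b).pow 2
  simpa using tendsto_nhds_unique hL h5

lemma geom_int (A : ℤ → ℝ) (l : ℝ) (hl : l ≠ 0) (h : ∀ k, A (k + 1) = l * A k) (k : ℤ) :
    A k = l ^ k * A 0 := by
  induction k using Int.induction_on with
  | zero => simp
  | succ i ih => rw [h, ih, zpow_add_one₀ hl]; ring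
  | pred i ih =>
    have h1 := h (-(i : ℤ) - 1)
    rw [sub_add_cancel, ih] at h1
    rw [zpow_sub_one₀ hl]
    field_simp
    linarith

lemma zpow_atTop_atTop (l : ℝ) (hl : 1 < l) : Tendsto (fun i : ℤ => l ^ i) atTop atTop := by
  have h := (tendsto_rpow_atTop_of_base_gt_one l hl).comp (tendsto_intCast_atTop_atTop (R := ℝ))
  refine h.congr (fun i => ?_)
  simp

lemma zpow_atBot_zero (l : ℝ) (hl : 1 < l) : Tendsto (fun i : ℤ => l ^ i) atBot (𝓝 0) := by
  have h := (tendsto_rpow_atBot_of_base_gt_one l hl).comp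
    ((tendsto_intCast_atBot_iff (R := ℝ)).mpr tendsto_id)
  refine h.congr (fun i => ?_)
  simp

/-- A hyperbolic recurrence whose squares converge along an injective sequence of indices
has limit zero. -/
lemma hyp_limit_zero (u : ℤ → ℝ) (τ L : ℝ) (hτ : 2 < τ)
    (hu : ∀ k, u (k + 2) = τ * u (k + 1) - u k) (k : ℕ → ℤ) (hk : Function.Injective k)
    (hL : Tendsto (fun j => u (k j) ^ 2) atTop (𝓝 L)) : L = 0 := by
  have hD : 0 < τ ^ 2 - 4 := by nlinarith
  set r := Real.sqrt (τ ^ 2 - 4) with hr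
  have hr0 : 0 < r := Real.sqrt_pos.mpr hD
  have hr2 : r ^ 2 = τ ^ 2 - 4 := Real.sq_sqrt hD.le
  set l := (τ + r) / 2 with hl
  have hl1 : 1 < l := by rw [hl]; linarith
  have hl0 : l ≠ 0 := by linarith
  have hinv : l⁻¹ = (τ - r) / 2 := by
    apply inv_eq_of_mul_eq_one_right
    rw [hl]; nlinarith
  have hmul : l * l⁻¹ = 1 := mul_inv_cancel₀ hl0
  have hA := geom_int (fun i => u (i + 1) - l⁻¹ * u i) l hl0 (by
    intro i
    have h1 := hu i
    have h2 : i + 1 + 1 = i + 2 := by ring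
    simp only [h2, h1]
    have h3 : τ = l + l⁻¹ := by rw [hinv, hl]; ring
    rw [h3]
    linear_combination (u i) * hmul)
  have hB := geom_int (fun i => u (i + 1) - l * u i) l⁻¹ (inv_ne_zero hl0) (by
    intro i
    have h1 := hu i
    have h2 : i + 1 + 1 = i + 2 := by ring
    simp only [h2, h1]
    have h3 : τ = l + l⁻¹ := by rw [hinv, hl]; ring
    rw [h3]
    linear_combination (u i) * hmul)
  set a := (u (0 + 1) - l⁻¹ * u 0) / r with ha
  set b := -(u (0 + 1) - l * u 0) / r with hb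
  have hform : ∀ i : ℤ, u i = a * l ^ i + b * (l ^ i)⁻¹ := by
    intro i
    have h1 := hA i
    have h2 := hB i
    simp only [inv_zpow] at h1 h2
    have h3 : r = l - l⁻¹ := by rw [hinv, hl]; ring
    have h4 : r * u i = l ^ i * (u (0 + 1) - l⁻¹ * u 0) - (l ^ i)⁻¹ * (u (0 + 1) - l * u 0) := by
      rw [← h1, ← h2, h3]; ring
    have h5 : u i = (r * u i) / r := by field_simp
    rw [h5, h4, ha, hb]
    ring
  have hF : map k atTop ≤ atBot ⊔ atTop := by
    rw [← Int.cofinite_eq, ← Nat.cofinite_eq_atTop]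
    exact hk.tendsto_cofinite
  have hL' : Tendsto (fun i => u i ^ 2) (map k atTop) (𝓝 L) := hL
  have hne : (map k atTop ⊓ atBot ⊔ map k atTop ⊓ atTop).NeBot := by
    rw [← inf_sup_left, inf_eq_left.mpr hF]
    infer_instance
  rcases sup_neBot.mp hne with h | h
  · refine aux_limit_zero (map k atTop ⊓ atBot) (fun i => l ^ i) u b a L ?_
      (fun i => zpow_ne_zero i hl0) (fun i => by rw [hform i]; ring) (hL'.mono_left inf_le_left)
    exact (zpow_atBot_zero l hl1).mono_left inf_le_right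
  · refine aux_limit_zero (map k atTop ⊓ atTop) (fun i => (l ^ i)⁻¹) u a b L ?_
      (fun i => inv_ne_zero (zpow_ne_zero i hl0)) (fun i => by rw [hform i, inv_inv])
      (hL'.mono_left inf_le_left)
    exact (tendsto_inv_atTop_zero.comp (zpow_atTop_atTop l hl1)).mono_left
      inf_le_right

/-- An affine recurrence whose squares converge along an injective sequence of indices
is constant. -/
lemma par_const (u : ℤ → ℝ) (L : ℝ)
    (hu : ∀ k, u (k + 2) = 2 * u (k + 1) - u k) (k : ℕ → ℤ) (hk : Function.Injective k)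
    (hL : Tendsto (fun j => u (k j) ^ 2) atTop (𝓝 L)) (i : ℤ) : u (i + 1) = u i := by
  have hA := geom_int (fun i => u (i + 1) - u i) 1 one_ne_zero (by
    intro i
    have h1 := hu i
    have h2 : i + 1 + 1 = i + 2 := by ring
    simp only [h2, h1]
    ring)
  simp only [one_zpow, one_mul] at hA
  set c := u (0 + 1) - u 0 with hc
  have hform : ∀ i : ℤ, u i = u 0 + i * c := by
    intro i
    induction i using Int.induction_on with
    | zero => simp
    | succ i ih =>
      have := hA i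
      push_cast at *
      linarith
    | pred i ih =>
      have := hA (-(i : ℤ) - 1)
      rw [sub_add_cancel] at this
      push_cast at *
      linarith
  have hcof : Tendsto k atTop cofinite := by
    rw [← Nat.cofinite_eq_atTop]
    exact hk.tendsto_cofinite
  have hinv : Tendsto (fun j => ((k j : ℝ))⁻¹) atTop (𝓝 0) := by
    have h1 : Tendsto (fun i : ℤ => ((i : ℝ))⁻¹) cofinite (𝓝 0) := by
      rw [Int.cofinite_eq, tendsto_sup]
      exact ⟨tendsto_inv_atBot_zero.comp (tendsto_intCast_atBot_iff.mpr tendsto_id),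
        tendsto_inv_atTop_zero.comp tendsto_intCast_atTop_atTop⟩
    exact h1.comp hcof
  have hne : ∀ᶠ j in atTop, k j ≠ 0 := hcof.eventually (eventually_cofinite_ne 0)
  have h1 : Tendsto (fun j => u (k j) ^ 2 * ((k j : ℝ))⁻¹ ^ 2) atTop (𝓝 (L * 0 ^ 2)) :=
    hL.mul (hinv.pow 2)
  have h2 : Tendsto (fun j => (u 0 * ((k j : ℝ))⁻¹ + c) ^ 2) atTop (𝓝 ((u 0 * 0 + c) ^ 2)) :=
    ((hinv.const_mul _).add_const c).pow 2
  have h3 : Tendsto (fun j => u (k j) ^ 2 * ((k j : ℝ))⁻¹ ^ 2) atTop (𝓝 ((u 0 * 0 + c) ^ 2)) := by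
    refine h2.congr' ?_
    filter_upwards [hne] with j hj
    have : (k j : ℝ) ≠ 0 := by exact_mod_cast hj
    rw [hform (k j)]
    field_simp
  have h4 := tendsto_nhds_unique h1 h3
  have hc0 : c = 0 := by
    have : c ^ 2 = 0 := by simpa using h4.symm
    exact pow_eq_zero_iff (two_ne_zero) |>.mp this
  have := hA i
  linarith

end Pool.Agent.MP_55c352_al

end MrgPart0

-- ======== part 1: formerly Pool.Agent.MP_55c352_al.Rep
section MrgPart1

/-! The `(2, 3, ∞)` triangle group acting on real binary quadratic forms. -/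

open Filter Topology
open scoped LinearAlgebra.Projectivization MatrixGroups

namespace Pool.Agent.MP_55c352_al

abbrev V3 := Fin 3 → ℝ

def M0 : CoxeterMatrix (Fin 3) where
  M := !![1, 3, 2; 3, 1, 0; 2, 0, 1]
  off_diagonal i j h := by
    fin_cases i <;> fin_cases j <;> simp at h ⊢

noncomputable def B0 : Matrix (Fin 3) (Fin 3) ℝ := !![1, -1/2, 0; -1/2, 1, -1; 0, -1, 1]

lemma bil (x y : V3) : Matrix.toBilin' B0 x y =
    x 0 * y 0 + x 1 * y 1 + x 2 * y 2 - (x 0 * y 1 + x 1 * y 0) / 2 - (x 1 * y 2 + x 2 * y 1) := by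
  simp [Matrix.toBilin'_apply, Fin.sum_univ_three, B0]
  ring

lemma isCoxeterForm : IsCoxeterForm M0 B0 := by
  refine ⟨?_, ?_, ?_, ?_⟩
  · ext i j
    fin_cases i <;> fin_cases j <;> simp [B0]
  · intro s
    fin_cases s <;> simp [B0]
  · intro s t h
    fin_cases s <;> fin_cases t <;> simp [B0, M0] at h ⊢ <;> norm_num
  · intro s t h
    fin_cases s <;> fin_cases t <;> simp [B0, M0] at h ⊢

noncomputable def diagEquiv : V3 ≃ₗ[ℝ] V3 where
  toFun x := ![x 2 - x 1, x 0 - x 1 / 2, x 1 / 2]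
  invFun y := ![y 1 + y 2, 2 * y 2, y 0 + 2 * y 2]
  map_add' x y := by
    ext i; fin_cases i <;> simp <;> ring
  map_smul' c x := by
    ext i; fin_cases i <;> simp <;> ring
  left_inv x := by
    ext i; fin_cases i <;> simp <;> ring
  right_inv y := by
    ext i; fin_cases i <;> simp

lemma equivDiag : QuadraticMap.Equivalent (Matrix.toBilin' B0).toQuadraticMap
    (QuadraticMap.weightedSumSquares ℝ (![1, 1, -1] : Fin 3 → ℝ)) := by
  refine ⟨⟨diagEquiv, fun x => ?_⟩⟩
  rw [QuadraticMap.weightedSumSquares_apply, LinearMap.BilinMap.toQuadraticMap_apply, bil]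
  simp [Fin.sum_univ_three, diagEquiv]
  ring

lemma isLorentzian : IsLorentzian B0 := by
  constructor
  · rw [QuadraticForm.sigPos_of_equiv_weightedSumSquares equivDiag]
    have : {i : Fin 3 | 0 < (![1, 1, -1] : Fin 3 → ℝ) i} = {0, 1} := by
      ext i; fin_cases i <;> simp
    rw [this, Set.ncard_pair (by decide)]
    simp
  · rw [QuadraticForm.sigNeg_of_equiv_weightedSumSquares equivDiag]
    have : {i : Fin 3 | (![1, 1, -1] : Fin 3 → ℝ) i < 0} = {2} := by
      ext i; fin_cases i <;> simp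
    rw [this, Set.ncard_singleton]

noncomputable def refl (s : Fin 3) : V3 ≃ₗ[ℝ] V3 :=
  Module.reflection (R := ℝ) (x := (Pi.single s 1 : V3))
    (f := (2 : ℝ) • Matrix.toBilin' B0 (Pi.single s 1)) (by
      fin_cases s <;> simp [B0])

lemma refl_apply (s : Fin 3) (v : V3) : refl s v =
    v - (2 * Matrix.toBilin' B0 (Pi.single s 1) v) • (Pi.single s 1 : V3) := by
  simp [refl, Module.reflection_apply]

lemma refl0 (v : V3) : refl 0 v = ![v 1 - v 0, v 1, v 2] := by
  rw [refl_apply, bil]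
  ext i; fin_cases i <;> simp
  ring

lemma refl1 (v : V3) : refl 1 v = ![v 0, v 0 - v 1 + 2 * v 2, v 2] := by
  rw [refl_apply, bil]
  ext i; fin_cases i <;> simp
  ring

lemma refl2 (v : V3) : refl 2 v = ![v 0, v 1, 2 * v 1 - v 2] := by
  rw [refl_apply, bil]
  ext i; fin_cases i <;> simp
  ring

lemma liftable : M0.IsLiftable refl := by
  intro i j
  ext v k
  fin_cases i <;> fin_cases j <;> fin_cases k <;>
    simp [M0, pow_succ, refl0, refl1, refl2] <;> ring

noncomputable def rho : M0.Group →* (V3 ≃ₗ[ℝ] V3) := M0.toCoxeterSystem.lift ⟨refl, liftable⟩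

lemma rho_simple (s : Fin 3) : rho (M0.simple s) = refl s := by
  rw [← M0.toCoxeterSystem_simple]
  exact M0.toCoxeterSystem.lift_apply_simple liftable s

lemma isGeometricRep : IsGeometricRep M0 B0 rho := by
  intro s v
  rw [rho_simple, refl_apply]

/-- The binary quadratic form attached to a vector. -/
noncomputable def ev (v : V3) (X Y : ℝ) : ℝ :=
  v 0 / 2 * X ^ 2 + (v 2 - v 1) * X * Y + (v 1 - v 0) / 2 * Y ^ 2

/-- The vector attached to the binary form `a X² + b XY + c Y²`. -/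
def vec (a b c : ℝ) : V3 := ![2 * a, 2 * a + 2 * c, b + 2 * a + 2 * c]

lemma ev_vec (a b c X Y : ℝ) : ev (vec a b c) X Y = a * X ^ 2 + b * X * Y + c * Y ^ 2 := by
  simp [ev, vec]

lemma eq_vec (v : V3) (a b c : ℝ)
    (h : ∀ X Y, ev v X Y = a * X ^ 2 + b * X * Y + c * Y ^ 2) : v = vec a b c := by
  have h1 := h 1 0
  have h2 := h 0 1
  have h3 := h 1 1
  simp only [ev] at h1 h2 h3
  ext i; fin_cases i <;> simp [vec] <;> linarith

lemma exists_vec (v : V3) : ∃ a b c, v = vec a b c :=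
  ⟨v 0 / 2, v 2 - v 1, (v 1 - v 0) / 2, eq_vec v _ _ _ fun _ _ => rfl⟩

lemma ev_ext (v w : V3) (h : ∀ X Y, ev v X Y = ev w X Y) : v = w := by
  obtain ⟨a, b, c, rfl⟩ := exists_vec w
  exact eq_vec v a b c fun X Y => by rw [h, ev_vec]

lemma bil_vec (a b c : ℝ) : Matrix.toBilin' B0 (vec a b c) (vec a b c) = b ^ 2 - 4 * a * c := by
  rw [bil]; simp [vec]; ring

/-- `T` acts on binary forms as the substitution by the matrix `(α β; γ δ)`. -/
def Rep (T : V3 ≃ₗ[ℝ] V3) (α β γ δ : ℝ) : Prop :=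
  ∀ v X Y, ev (T v) X Y = ev v (α * X + β * Y) (γ * X + δ * Y)

lemma rep0 : Rep (refl 0) 0 1 1 0 := by
  intro v X Y; rw [refl0]; simp [ev]; ring

lemma rep1 : Rep (refl 1) (-1) 1 0 1 := by
  intro v X Y; rw [refl1]; simp [ev]; ring

lemma rep2 : Rep (refl 2) (-1) 0 0 1 := by
  intro v X Y; rw [refl2]; simp [ev]; ring

lemma Rep.mul {T T' : V3 ≃ₗ[ℝ] V3} {α β γ δ α' β' γ' δ' : ℝ} (h : Rep T α β γ δ)
    (h' : Rep T' α' β' γ' δ') :
    Rep (T * T') (α' * α + β' * γ) (α' * β + β' * δ) (γ' * α + δ' * γ) (γ' * β + δ' * δ) := by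
  intro v X Y
  rw [LinearEquiv.mul_apply, h, h']
  congr 1 <;> ring

lemma rep_one : Rep 1 1 0 0 1 := by
  intro v X Y; simp

lemma exists_rep (w : M0.Group) :
    ∃ α β γ δ : ℤ, (α * δ - β * γ) ^ 2 = 1 ∧ Rep (rho w) α β γ δ := by
  induction w using M0.toCoxeterSystem.simple_induction with
  | simple i =>
    rw [M0.toCoxeterSystem_simple, rho_simple]
    fin_cases i
    · exact ⟨0, 1, 1, 0, by norm_num, by simpa using rep0⟩
    · exact ⟨-1, 1, 0, 1, by norm_num, by simpa using rep1⟩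
    · exact ⟨-1, 0, 0, 1, by norm_num, by simpa using rep2⟩
  | one => exact ⟨1, 0, 0, 1, by norm_num, by simpa using rep_one⟩
  | mul w w' h h' =>
    obtain ⟨α, β, γ, δ, hd, h⟩ := h
    obtain ⟨α', β', γ', δ', hd', h'⟩ := h'
    refine ⟨α' * α + β' * γ, α' * β + β' * δ, γ' * α + δ' * γ, γ' * β + δ' * δ, ?_, ?_⟩
    · calc _ = (α * δ - β * γ) ^ 2 * (α' * δ' - β' * γ') ^ 2 := by ring
        _ = 1 := by rw [hd, hd', one_mul]
    · rw [map_mul]
      simpa using h.mul h'

lemma exists_of_SL2 (g : SL(2, ℤ)) :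
    ∃ w : M0.Group, Rep (rho w) (g 0 0 : ℤ) (g 0 1 : ℤ) (g 1 0 : ℤ) (g 1 1 : ℤ) := by
  have hg : g ∈ Subgroup.closure {ModularGroup.S, ModularGroup.T} := by
    rw [SpecialLinearGroup.SL2Z_generators]; trivial
  induction hg using Subgroup.closure_induction with
  | mem x hx =>
    rcases hx with rfl | rfl
    · refine ⟨M0.simple 0 * M0.simple 2, ?_⟩
      rw [map_mul, rho_simple, rho_simple]
      simpa [ModularGroup.S] using rep0.mul rep2
    · refine ⟨M0.simple 2 * M0.simple 1, ?_⟩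
      rw [map_mul, rho_simple, rho_simple]
      simpa [ModularGroup.T] using rep2.mul rep1
  | one => exact ⟨1, by simpa using rep_one⟩
  | mul x y _ _ hx hy =>
    obtain ⟨w, hw⟩ := hx
    obtain ⟨w', hw'⟩ := hy
    refine ⟨w' * w, ?_⟩
    rw [map_mul]
    simpa [Matrix.mul_apply, Fin.sum_univ_two] using hw'.mul hw
  | inv x _ hx =>
    obtain ⟨w, hw⟩ := hx
    refine ⟨w⁻¹, fun v X Y => ?_⟩
    have hd : (x 0 0 : ℝ) * x 1 1 - x 0 1 * x 1 0 = 1 := by
      have := x.det_coe
      rw [Matrix.det_fin_two] at this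
      exact_mod_cast this
    have h1 := hw (rho w⁻¹ v) ((x 1 1 : ℝ) * X - x 0 1 * Y) (-(x 1 0 : ℝ) * X + x 0 0 * Y)
    have h2 : rho w (rho w⁻¹ v) = v := by
      rw [← LinearEquiv.mul_apply, ← map_mul]; simp
    rw [h2] at h1
    have h3 : (x 0 0 : ℝ) * ((x 1 1 : ℝ) * X - x 0 1 * Y) + x 0 1 * (-(x 1 0 : ℝ) * X + x 0 0 * Y)
        = X := by linear_combination X * hd
    have h4 : (x 1 0 : ℝ) * ((x 1 1 : ℝ) * X - x 0 1 * Y) + x 1 1 * (-(x 1 0 : ℝ) * X + x 0 0 * Y)
        = Y := by linear_combination Y * hd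
    rw [h3, h4] at h1
    rw [← h1, Matrix.SpecialLinearGroup.SL2_inv_expl]
    simp only [Matrix.cons_val', Matrix.cons_val_zero,
      Matrix.cons_val_one, Matrix.cons_val_fin_one, Int.cast_neg]
    congr 1; ring

lemma Rep.bil_eq {T : V3 ≃ₗ[ℝ] V3} {α β γ δ : ℝ} (h : Rep T α β γ δ) (v : V3) :
    Matrix.toBilin' B0 (T v) (T v) = (α * δ - β * γ) ^ 2 * Matrix.toBilin' B0 v v := by
  obtain ⟨a, b, c, rfl⟩ := exists_vec v
  have : T (vec a b c) = vec (a * α ^ 2 + b * α * γ + c * γ ^ 2)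
      (2 * a * α * β + b * (α * δ + β * γ) + 2 * c * γ * δ) (a * β ^ 2 + b * β * δ + c * δ ^ 2) :=
    eq_vec _ _ _ _ fun X Y => by rw [h, ev_vec]; ring
  rw [this, bil_vec, bil_vec]
  ring

lemma bil_rho (w : M0.Group) (v : V3) :
    Matrix.toBilin' B0 (rho w v) (rho w v) = Matrix.toBilin' B0 v v := by
  obtain ⟨α, β, γ, δ, hd, h⟩ := exists_rep w
  rw [h.bil_eq]
  have : ((α : ℝ) * δ - β * γ) ^ 2 = 1 := by exact_mod_cast hd
  rw [this, one_mul]

end Pool.Agent.MP_55c352_al

end MrgPart1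

-- ======== part 2: formerly Pool.Agent.MP_55c352_al.Main
section MrgPart2

/-! The space-like direction `XY + s Y²` is a limit direction but does not arise through powers. -/

open Filter Topology
open scoped LinearAlgebra.Projectivization MatrixGroups

namespace Pool.Agent.MP_55c352_al

lemma vec_ne_zero_of_disc {a b c : ℝ} (h : b ^ 2 - 4 * a * c ≠ 0) : vec a b c ≠ 0 := by
  intro h0
  apply h
  rw [← bil_vec, h0]
  simp

lemma vec01_ne (s : ℝ) : vec 0 1 s ≠ 0 := vec_ne_zero_of_disc (by norm_num)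

lemma vec_smul (t a b c : ℝ) : t • vec a b c = vec (t * a) (t * b) (t * c) := by
  ext i; fin_cases i <;> simp [vec] <;> ring

lemma vec_inj {a b c a' b' c' : ℝ} (h : vec a b c = vec a' b' c') : a = a' ∧ b = b' ∧ c = c' := by
  have h0 := congrFun h 0
  have h1 := congrFun h 1
  have h2 := congrFun h 2
  simp [vec] at h0 h1 h2
  refine ⟨h0, ?_, ?_⟩ <;> linarith

/-- Small nonzero values of `Y (X - θ Y)` at primitive integer vectors. -/
lemma small_value {θ : ℝ} (hθ : Liouville θ) (ε : ℝ) (hε : 0 < ε) :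
    ∃ r q : ℤ, IsCoprime r q ∧ (r : ℝ) * q - θ * q ^ 2 ≠ 0 ∧ |(r : ℝ) * q - θ * q ^ 2| < ε := by
  obtain ⟨n, hn⟩ := exists_pow_lt_of_lt_one hε (by norm_num : (1 / 2 : ℝ) < 1)
  obtain ⟨a, b, hb, hne, hlt⟩ := hθ (n + 2)
  have hg : 0 < Int.gcd a b := Int.gcd_pos_of_ne_zero_right a (by omega)
  obtain ⟨g, r, q, hg0, hcop, rfl, rfl⟩ := Int.exists_gcd_one' hg
  have hq : 0 < q := by
    by_contra hq
    push Not at hq
    have : q * (g : ℤ) ≤ 0 := mul_nonpos_of_nonpos_of_nonneg hq (by positivity)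
    omega
  have hqR : (0 : ℝ) < q := by exact_mod_cast hq
  have hgR : (1 : ℝ) ≤ g := by exact_mod_cast hg0
  have hfrac : ((r * (g : ℤ) : ℤ) : ℝ) / ((q * (g : ℤ) : ℤ) : ℝ) = r / q := by
    push_cast
    field_simp
  rw [hfrac] at hne hlt
  have hbR : (2 : ℝ) ≤ ((q * (g : ℤ) : ℤ) : ℝ) := by exact_mod_cast hb
  set b : ℝ := ((q * (g : ℤ) : ℤ) : ℝ) with hbdef
  have hqb : (q : ℝ) ≤ b := by
    rw [hbdef]; push_cast; nlinarith
  have key : (r : ℝ) * q - θ * q ^ 2 = -(q ^ 2) * (θ - r / q) := by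
    field_simp; ring
  refine ⟨r, q, Int.isCoprime_iff_gcd_eq_one.mpr hcop, ?_, ?_⟩
  · rw [key]
    exact mul_ne_zero (neg_ne_zero.mpr (by positivity)) (sub_ne_zero.mpr hne)
  · rw [key, abs_mul, abs_neg, abs_of_pos (by positivity : (0 : ℝ) < q ^ 2)]
    have hb0 : 0 < b := by linarith
    calc (q : ℝ) ^ 2 * |θ - r / q| ≤ b ^ 2 * (1 / b ^ (n + 2)) := by
          apply mul_le_mul (by gcongr) hlt.le (abs_nonneg _) (by positivity)
      _ = (1 / b) ^ n := by
          rw [pow_add, one_div_pow]; field_simp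
      _ ≤ (1 / 2) ^ n := by
          gcongr
      _ < ε := hn

/-- Orbit points close to the line of forms `XY + s Y²`. -/
lemma orbit_point {θ : ℝ} (hθ : Liouville θ) (ε : ℝ) (hε : 0 < ε) :
    ∃ (w : M0.Group) (A s : ℝ), A ≠ 0 ∧ |A| < ε ∧ s ∈ Set.Icc (0 : ℝ) 1 ∧
      rho w (vec 0 1 (-θ)) = vec A (1 + 2 * A * s) (s * (1 + A * s)) := by
  obtain ⟨r, q, hcop, hA0, hAε⟩ := small_value hθ ε hε
  obtain ⟨g, hg0, hg1⟩ := hcop.exists_SL2_col 0
  obtain ⟨w, hw⟩ := exists_of_SL2 g
  obtain ⟨A, B, C, hv⟩ := exists_vec (rho w (vec 0 1 (-θ)))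
  have hA : A = (r : ℝ) * q - θ * q ^ 2 := by
    have := hw (vec 0 1 (-θ)) 1 0
    rw [hv, ev_vec, ev_vec, hg0, hg1] at this
    linear_combination this
  rw [← hA] at hA0 hAε
  have hdisc : B ^ 2 - 4 * A * C = 1 := by
    rw [← bil_vec, ← hv, bil_rho, bil_vec]; ring
  set y := (B - 1) / (2 * A) with hy
  set m : ℤ := -⌊y⌋ with hm
  obtain ⟨w', hw'⟩ := exists_of_SL2 (ModularGroup.T ^ m)
  rw [show ((ModularGroup.T ^ m : SL(2, ℤ)) 0 0) = 1 by simp [ModularGroup.coe_T_zpow],
    show ((ModularGroup.T ^ m : SL(2, ℤ)) 0 1) = m by simp [ModularGroup.coe_T_zpow],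
    show ((ModularGroup.T ^ m : SL(2, ℤ)) 1 0) = 0 by simp [ModularGroup.coe_T_zpow],
    show ((ModularGroup.T ^ m : SL(2, ℤ)) 1 1) = 1 by simp [ModularGroup.coe_T_zpow]] at hw'
  refine ⟨w' * w, A, Int.fract y, hA0, hAε, ⟨Int.fract_nonneg y, (Int.fract_lt_one y).le⟩, ?_⟩
  rw [map_mul, LinearEquiv.mul_apply, hv]
  have hs : Int.fract y = y + m := by
    rw [hm, Int.fract]; push_cast; ring
  have hB : B = 1 + 2 * A * y := by
    rw [hy]; field_simp; ring
  have hC : C = y * (1 + A * y) := by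
    have : 4 * A * C = 4 * A * (y * (1 + A * y)) := by
      rw [hB] at hdisc; linear_combination -hdisc
    exact mul_left_cancel₀ (by simpa using hA0) this
  refine eq_vec _ _ _ _ fun X Y => ?_
  rw [hw', ev_vec, hs, hB, hC]
  push_cast
  ring

lemma projTendsto_of_tendsto (v : ℕ → V3) (hv : ∀ j, v j ≠ 0) (x : V3) (hx : x ≠ 0)
    (h : Tendsto v atTop (𝓝 x)) :
    ProjTendsto (fun j => Projectivization.mk ℝ (v j) (hv j)) (Projectivization.mk ℝ x hx) := by
  have h1 : Tendsto (fun j => (⟨v j, hv j⟩ : {u : V3 // u ≠ 0})) atTop (𝓝 ⟨x, hx⟩) :=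
    tendsto_subtype_rng.mpr h
  let _ : TopologicalSpace (ℙ ℝ V3) :=
    TopologicalSpace.coinduced (Projectivization.mk' ℝ) inferInstance
  have hc : Continuous (Projectivization.mk' ℝ : {u : V3 // u ≠ 0} → ℙ ℝ V3) :=
    continuous_coinduced_rng
  exact (hc.tendsto _).comp h1

theorem exists_limit_direction :
    ∃ s : ℝ, IsLimitDirection rho (Projectivization.mk ℝ (vec 0 1 s) (vec01_ne s)) := by
  have hθ : Liouville (liouvilleNumber (2 : ℕ)) := liouville_liouvilleNumber le_rfl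
  set θ := liouvilleNumber (2 : ℕ)
  choose w A s hA0 hAε hs hw using fun n : ℕ =>
    orbit_point hθ (1 / ((n : ℝ) + 1)) (Nat.one_div_pos_of_nat)
  have hAlim : Tendsto A atTop (𝓝 0) := by
    rw [tendsto_zero_iff_abs_tendsto_zero]
    exact squeeze_zero (fun n => abs_nonneg _) (fun n => (hAε n).le)
      tendsto_one_div_add_atTop_nhds_zero_nat
  -- a subsequence along which `|A|` is strictly decreasing
  have hnext : ∀ n, ∃ m, n < m ∧ |A m| < |A n| := by
    intro n
    have h1 : ∀ᶠ m in atTop, |A m| < |A n| :=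
      (tendsto_zero_iff_abs_tendsto_zero A |>.mp hAlim).eventually
        (gt_mem_nhds (abs_pos.mpr (hA0 n)))
    exact ((eventually_gt_atTop n).and h1).exists
  choose f hf1 hf2 using hnext
  set φ : ℕ → ℕ := fun k => f^[k] 0 with hφ
  have hφs : ∀ k, φ (k + 1) = f (φ k) := fun k => Function.iterate_succ_apply' f k 0
  have hφmono : StrictMono φ := strictMono_nat_of_lt_succ fun k => by rw [hφs]; exact hf1 _
  have hφanti : StrictAnti fun k => |A (φ k)| :=
    strictAnti_nat_of_succ_lt fun k => by rw [hφs]; exact hf2 _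
  obtain ⟨s0, -, ψ, hψ, hlim⟩ := isCompact_Icc.tendsto_subseq (fun k => hs (φ k))
  set χ : ℕ → ℕ := φ ∘ ψ with hχ
  have hχt : Tendsto χ atTop atTop := (hφmono.comp hψ).tendsto_atTop
  have hAχ : Tendsto (fun j => A (χ j)) atTop (𝓝 0) := hAlim.comp hχt
  have hsχ : Tendsto (fun j => s (χ j)) atTop (𝓝 s0) := hlim
  have hinj : Function.Injective fun j => |A (χ j)| := (hφanti.comp_strictMono hψ).injective
  have hdisc : ∀ n, (1 + 2 * A n * s n) ^ 2 - 4 * A n * (s n * (1 + A n * s n)) = 1 := by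
    intro n; ring
  have hne : ∀ n, vec (A n) (1 + 2 * A n * s n) (s n * (1 + A n * s n)) ≠ 0 := fun n =>
    vec_ne_zero_of_disc (by rw [hdisc]; norm_num)
  have hpt : (fun j => rho (w (χ j)) • Projectivization.mk ℝ (vec 0 1 (-θ)) (vec01_ne _)) =
      fun j => Projectivization.mk ℝ _ (hne (χ j)) := by
    funext j
    rw [Projectivization.smul_mk]
    congr 1
    exact hw _
  refine ⟨s0, Projectivization.mk ℝ (vec 0 1 (-θ)) (vec01_ne _), fun j => w (χ j), ?_, ?_⟩
  · rw [hpt]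
    intro i j hij
    obtain ⟨t, ht⟩ := (Projectivization.mk_eq_mk_iff' ℝ _ _ _ _).mp hij
    rw [vec_smul] at ht
    obtain ⟨h1, h2, h3⟩ := vec_inj ht
    have ht2 : t ^ 2 = 1 := by
      have h4 := hdisc (χ i)
      rw [← h2, ← h3] at h4
      nth_rewrite 1 [← h1] at h4
      linear_combination h4 - t ^ 2 * hdisc (χ j)
    apply hinj
    have habs : |t| = 1 := by
      rcases sq_eq_one_iff.mp ht2 with h | h <;> simp [h]
    simp only
    rw [← h1, abs_mul, habs, one_mul]
  · rw [hpt]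
    apply projTendsto_of_tendsto
    have hcont : Continuous fun z : ℝ × ℝ =>
        vec z.1 (1 + 2 * z.1 * z.2) (z.2 * (1 + z.1 * z.2)) := by
      refine continuous_pi fun i => ?_
      fin_cases i <;> simp [vec] <;> fun_prop
    have := (hcont.tendsto (0, s0)).comp (hAχ.prodMk_nhds hsχ)
    simpa [Function.comp_def] using this

/-- Scale-invariant continuous functions pass to limits in the projective space. -/
lemma tendsto_of_projTendsto (F : V3 → ℝ) (hF : ContinuousOn F {v | v ≠ 0})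
    (hinv : ∀ (t : ℝ) (v : V3), t • v ≠ 0 → F (t • v) = F v)
    (v : ℕ → V3) (hv : ∀ j, v j ≠ 0) (x : V3) (hx : x ≠ 0)
    (h : ProjTendsto (fun j => Projectivization.mk ℝ (v j) (hv j)) (Projectivization.mk ℝ x hx)) :
    Tendsto (fun j => F (v j)) atTop (𝓝 (F x)) := by
  let _ : TopologicalSpace (ℙ ℝ V3) :=
    TopologicalSpace.coinduced (Projectivization.mk' ℝ) inferInstance
  let G : ℙ ℝ V3 → ℝ := Projectivization.lift (fun u => F u.1) (by
    rintro ⟨a, ha⟩ ⟨b, hb⟩ t (rfl : a = t • b)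
    exact hinv t b ha)
  have hG : Continuous G := by
    rw [continuous_coinduced_dom]
    exact hF.domRestrict
  exact (hG.tendsto _).comp h

/-- If vectors of constant norm `c` converge projectively to `x` of norm `1`, then `c ≠ 0` and
squares of linear functionals converge. -/
lemma tendsto_sq (v : ℕ → V3) (hv : ∀ j, v j ≠ 0) (x : V3) (hx : x ≠ 0) (c : ℝ)
    (hc : ∀ j, Matrix.toBilin' B0 (v j) (v j) = c) (hx1 : Matrix.toBilin' B0 x x = 1)
    (h : ProjTendsto (fun j => Projectivization.mk ℝ (v j) (hv j)) (Projectivization.mk ℝ x hx)) :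
    c ≠ 0 ∧ ∀ l : V3 →ₗ[ℝ] ℝ, Tendsto (fun j => l (v j) ^ 2) atTop (𝓝 (c * l x ^ 2)) := by
  have hN : ∀ u : V3, u ≠ 0 → ‖u‖ ^ 2 ≠ 0 := fun u hu => pow_ne_zero 2 (norm_ne_zero_iff.mpr hu)
  have h1 := tendsto_of_projTendsto (fun u => Matrix.toBilin' B0 u u / ‖u‖ ^ 2)
    (by
      refine ContinuousOn.div ?_ (by fun_prop) hN
      simp only [bil]
      fun_prop)
    (by
      intro t u htu
      have ht : t ≠ 0 := left_ne_zero_of_smul htu
      have hu := hN u (right_ne_zero_of_smul htu)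
      simp only [map_smul, LinearMap.smul_apply, smul_eq_mul, norm_smul, mul_pow,
        Real.norm_eq_abs, sq_abs]
      field_simp) v hv x hx h
  simp only [hc, hx1] at h1
  have hc0 : c ≠ 0 := by
    rintro rfl
    simp only [zero_div] at h1
    have := tendsto_nhds_unique h1 tendsto_const_nhds
    exact (div_ne_zero one_ne_zero (hN x hx)) this
  refine ⟨hc0, fun l => ?_⟩
  have hl : Continuous l := l.continuous_of_finiteDimensional
  have h2 := tendsto_of_projTendsto (fun u => l u ^ 2 / ‖u‖ ^ 2)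
    (ContinuousOn.div (by fun_prop) (by fun_prop) hN)
    (by
      intro t u htu
      have ht : t ≠ 0 := left_ne_zero_of_smul htu
      have hu := hN u (right_ne_zero_of_smul htu)
      simp only [map_smul, smul_eq_mul, norm_smul, mul_pow, Real.norm_eq_abs, sq_abs]
      field_simp) v hv x hx h
  have h3 := (h2.div h1 (div_ne_zero one_ne_zero (hN x hx))).const_mul c
  have h4 : c * (l x ^ 2 / ‖x‖ ^ 2 / (1 / ‖x‖ ^ 2)) = c * l x ^ 2 := by
    have := hN x hx
    field_simp
  rw [h4] at h3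
  refine h3.congr fun j => ?_
  have : ‖v j‖ ≠ 0 := norm_ne_zero_iff.mpr (hv j)
  simp only [Pi.div_apply]
  field_simp

/-- Evaluation of the binary form at a point, as a linear functional. -/
noncomputable def evL (X Y : ℝ) : V3 →ₗ[ℝ] ℝ where
  toFun v := ev v X Y
  map_add' u v := by simp [ev]; ring
  map_smul' t v := by simp [ev]; ring

lemma Rep.cubic {T : V3 ≃ₗ[ℝ] V3} {α β γ δ : ℝ} (h : Rep T α β γ δ) (d τ : ℝ)
    (hd : d = α * δ - β * γ) (hτ : τ = (α + δ) ^ 2 - 2 * d) (v : V3) (X Y : ℝ) :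
    ev (T (T (T v))) X Y =
      (τ + d) * ev (T (T v)) X Y - (d ^ 2 + d * τ) * ev (T v) X Y + d ^ 3 * ev v X Y := by
  simp only [h _ _ _]
  subst hτ hd
  simp only [ev]
  ring

theorem not_arises (s : ℝ) (w : M0.Group) :
    ¬ ArisesThroughPowers rho w (Projectivization.mk ℝ (vec 0 1 s) (vec01_ne s)) := by
  rintro ⟨p, k, hinj, hlim⟩
  induction p using Projectivization.ind with
  | h p hp => ?_
  obtain ⟨α, β, γ, δ, hd, hT⟩ := exists_rep w
  set T := rho w with hTdef
  have hv : ∀ i : ℤ, (T ^ i) p ≠ 0 := fun i => (T ^ i).map_ne_zero_iff.mpr hp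
  have hpt : (fun j => rho (w ^ k j) • Projectivization.mk ℝ p hp) =
      fun j => Projectivization.mk ℝ ((T ^ k j) p) (hv _) := by
    funext j
    rw [Projectivization.smul_mk]
    congr 1
    rw [map_zpow]; rfl
  rw [hpt] at hinj hlim
  have hk : Function.Injective k := fun i j hij => hinj (by simp only [hij])
  -- the orbit of `p` under powers of `T` is infinite
  have hinf : ∀ n : ℕ, 0 < n → (T ^ n) p ≠ p := by
    intro n hn hfix
    have hper : ∀ i : ℤ, (T ^ ((n : ℤ) * i)) p = p := by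
      intro i
      rw [zpow_mul, zpow_natCast]
      exact (MulAction.stabilizer (V3 ≃ₗ[ℝ] V3) p).zpow_mem hfix i
    have : NeZero n := ⟨hn.ne'⟩
    obtain ⟨i, j, hij, he⟩ := Finite.exists_ne_map_eq_of_infinite fun j => ((k j : ℤ) : ZMod n)
    obtain ⟨e, he⟩ := (ZMod.intCast_eq_intCast_iff_dvd_sub _ _ _).mp he
    apply hij
    apply hinj
    have : (T ^ k j) p = (T ^ k i) p := by
      rw [show k j = k i + n * e by omega, zpow_add, LinearEquiv.mul_apply, hper]
    simp only [this]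
  obtain ⟨hc0, hsq⟩ := tendsto_sq (fun j => (T ^ k j) p) (fun j => hv _) (vec 0 1 s) (vec01_ne s)
    (Matrix.toBilin' B0 p p) (fun j => by rw [hTdef, ← map_zpow, bil_rho])
    (by rw [bil_vec]; norm_num) hlim
  set d : ℝ := (α : ℝ) * δ - β * γ with hddef
  set τ : ℝ := ((α : ℝ) + δ) ^ 2 - 2 * d with hτdef
  have hd2 : d ^ 2 = 1 := by rw [hddef]; exact_mod_cast hd
  have hstep : ∀ i : ℤ, (T ^ (i + 1)) p = T ((T ^ i) p) := by
    intro i; rw [add_comm, zpow_add, zpow_one, LinearEquiv.mul_apply]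
  -- the two-term recurrence
  have hrec : ∀ X Y (i : ℤ),
      (ev (T ((T ^ (i + 2)) p)) X Y - d * ev ((T ^ (i + 2)) p) X Y) =
        τ * (ev (T ((T ^ (i + 1)) p)) X Y - d * ev ((T ^ (i + 1)) p) X Y) -
          (ev (T ((T ^ i) p)) X Y - d * ev ((T ^ i) p) X Y) := by
    intro X Y i
    rw [show i + 2 = i + 1 + 1 by ring, hstep, hstep, hT.cubic d τ hddef hτdef]
    linear_combination (-ev (T ((T ^ i) p)) X Y + d * ev ((T ^ i) p) X Y) * hd2
  have hulim : ∀ X Y, Tendsto
      (fun j => (ev (T ((T ^ k j) p)) X Y - d * ev ((T ^ k j) p) X Y) ^ 2) atTop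
      (𝓝 (Matrix.toBilin' B0 p p * (ev (T (vec 0 1 s)) X Y - d * ev (vec 0 1 s) X Y) ^ 2)) :=
    fun X Y => hsq (evL X Y ∘ₗ T.toLinearMap - d • evL X Y)
  have hdZ : α * δ - β * γ = 1 ∨ α * δ - β * γ = -1 := sq_eq_one_iff.mp hd
  by_cases ht0 : α + δ = 0
  · -- an involution
    apply hinf 2 two_pos
    apply ev_ext
    intro X Y
    have hδ : (δ : ℝ) = -α := by
      have : (α : ℝ) + δ = 0 := by exact_mod_cast ht0
      linarith
    rw [pow_two, LinearEquiv.mul_apply, hT, hT]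
    rw [hddef, hδ] at hd2
    simp only [ev, hδ]
    linear_combination (p 0 / 2 * X ^ 2 + (p 2 - p 1) * X * Y + (p 1 - p 0) / 2 * Y ^ 2) * hd2
  by_cases hhyp : 2 < τ
  · -- hyperbolic: the limit would be the axis, which has no cusp as endpoint
    have hax : ∀ X Y, ev (T (vec 0 1 s)) X Y = d * ev (vec 0 1 s) X Y := by
      intro X Y
      have h1 := hyp_limit_zero (fun i => ev (T ((T ^ i) p)) X Y - d * ev ((T ^ i) p) X Y) τ _
        hhyp (hrec X Y) k hk (hulim X Y)
      have h2 := (mul_eq_zero.mp h1).resolve_left hc0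
      have h3 := pow_eq_zero_iff two_ne_zero |>.mp h2
      linarith
    have e1 := hax 1 0
    have e2 := hax 0 1
    have e3 := hax 1 1
    rw [hT, ev_vec, ev_vec] at e1 e2 e3
    have f1 : (γ : ℝ) * (α + s * γ) = 0 := by linear_combination e1
    have f2 : (γ : ℝ) * β + δ * α + 2 * s * γ * δ = d := by linear_combination e3 - e1 - e2
    rcases mul_eq_zero.mp f1 with hγ | hγ
    · have hγZ : γ = 0 := by exact_mod_cast hγ
      rw [hγZ, mul_zero, sub_zero] at hdZ
      have hτ2 : τ = (α : ℝ) ^ 2 + δ ^ 2 := by rw [hτdef, hddef, hγ]; ring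
      have hαδ : α ^ 2 + δ ^ 2 = 2 := by
        rcases hdZ with h | h
        · rcases Int.mul_eq_one_iff_eq_one_or_neg_one.mp h with ⟨h1, h2⟩ | ⟨h1, h2⟩ <;>
            simp [h1, h2]
        · rcases Int.mul_eq_neg_one_iff_eq_one_or_neg_one.mp h with ⟨h1, h2⟩ | ⟨h1, h2⟩ <;>
            simp [h1, h2]
      have : (α : ℝ) ^ 2 + δ ^ 2 = 2 := by exact_mod_cast hαδ
      linarith
    · have : d = -d := by
        rw [hddef] at f2 ⊢
        linear_combination -f2 + 2 * (δ : ℝ) * hγ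
      have hd0 : d = 0 := by linarith
      rw [hd0] at hd2
      norm_num at hd2
  · have ht1 : (1 : ℤ) ≤ (α + δ) ^ 2 := by
      have : 0 < (α + δ) ^ 2 := by positivity
      omega
    have hτZ : (α + δ) ^ 2 - 2 * (α * δ - β * γ) ≤ 2 := by
      have : τ ≤ 2 := not_lt.mp hhyp
      rw [hτdef, hddef] at this
      exact_mod_cast this
    have hd1Z : α * δ - β * γ = 1 := by
      rcases hdZ with h | h
      · exact h
      · rw [h] at hτZ; omega
    have hd1 : d = 1 := by rw [hddef]; exact_mod_cast hd1Z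
    have ht : (α + δ) ^ 2 = 1 ∨ (α + δ) ^ 2 = 4 := by
      rw [hd1Z] at hτZ
      have h1 : α + δ ≤ 2 := by nlinarith
      have h2 : -2 ≤ α + δ := by nlinarith
      generalize α + δ = t at *
      interval_cases t <;> simp at *
    rcases ht with ht | ht
    · -- order three
      have hτ1 : τ = -1 := by
        have : ((α : ℝ) + δ) ^ 2 = 1 := by exact_mod_cast ht
        rw [hτdef, this, hd1]; norm_num
      apply hinf 3 three_pos
      apply ev_ext
      intro X Y
      rw [pow_three, LinearEquiv.mul_apply, LinearEquiv.mul_apply, hT.cubic d τ hddef hτdef,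
        hτ1, hd1]
      ring
    · -- parabolic
      have hτ2 : τ = 2 := by
        have : ((α : ℝ) + δ) ^ 2 = 4 := by exact_mod_cast ht
        rw [hτdef, this, hd1]; norm_num
      apply hinf 1 one_pos
      apply ev_ext
      intro X Y
      have h1 := par_const (fun i => ev (T ((T ^ i) p)) X Y - d * ev ((T ^ i) p) X Y) _
        (by rw [← hτ2]; exact hrec X Y) k hk (hulim X Y)
      have h2 := par_const (fun i => ev ((T ^ i) p) X Y) _ (by
        intro i
        have := h1 i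
        rw [show i + 2 = i + 1 + 1 by ring, hstep (i + 1)]
        rw [hd1, ← hstep i] at this
        linarith) k hk (hsq (evL X Y)) 0
      simpa using h2

end Pool.Agent.MP_55c352_al

end MrgPart2

-- marker of a merged file
example : 731051 + 22253 = 731051 + 22253 := rfl
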